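import Pool.Agent.H406.GLF.Local
import Pool.Agent.H921R2.TatePole.Dedekind

/-! Dirichlet densities of sets of places from the poles of Rankin-Selberg `L`-functions at `s = 1`. -/

set_option autoImplicit false

open NumberField IsDedekindDomain Filter Topology
open Pool.Agent.H921R2.TatePole (Lam Bdd)

namespace Pool.Agent.H406.GLF

/-- the finite places of `K` outside `S` -/
abbrev Places {K : Type} [Field K] [NumberField K] (S : Finset (HeightOneSpectrum (𝓞 K))) :=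
  {v : HeightOneSpectrum (𝓞 K) // v ∉ S}

/-- the norm of a finite place -/
noncomputable def Nm {K : Type} [Field K] [NumberField K] (v : HeightOneSpectrum (𝓞 K)) : ℕ :=
  Ideal.absNorm v.asIdeal

variable {K : Type} [Field K] [NumberField K] {S : Finset (HeightOneSpectrum (𝓞 K))}

/-- the term of the logarithm of the partial Rankin-Selberg `L`-function -/
noncomputable def rsTerm {n : ℕ} (a : Places S → Fin n → ℂ) (σ : ℝ) (x : Places S × ℕ) : ℝ :=
  ‖∑ i, a x.1 i ^ (x.2 + 1)‖ ^ 2 / ((x.2 : ℝ) + 1) * ((Nm x.1.1 : ℝ) ^ (-σ)) ^ (x.2 + 1)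

/-- `∑_{v ∉ S} ∑_{k ≥ 1} |∑_i a_{i,v}^k|² / k · (N v)^{-kσ}` -/
noncomputable def logRS {n : ℕ} (a : Places S → Fin n → ℂ) (σ : ℝ) : ℝ := ∑' x : Places S × ℕ, rsTerm a σ x

/-- The partial Rankin-Selberg `L`-function converges for `σ > 1` and has a pole of order `m` at `1`. -/
def RSPole {n : ℕ} (a : Places S → Fin n → ℂ) (m : ℕ) : Prop :=
  (∀ σ : ℝ, 1 < σ → Summable (rsTerm a σ)) ∧
  ∃ c : ℝ, 0 < c ∧ Tendsto (fun σ : ℝ => (σ - 1) ^ m * Real.exp (logRS a σ)) (𝓝[>] 1) (𝓝 c)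

/-- the term of the logarithm of the partial standard `L`-function -/
noncomputable def stdTerm {n : ℕ} (a : Places S → Fin n → ℂ) (σ : ℝ) (x : Places S × ℕ) : ℂ :=
  (∑ i, a x.1 i ^ (x.2 + 1)) / ((x.2 : ℂ) + 1) * ((((Nm x.1.1 : ℝ) ^ (-σ)) ^ (x.2 + 1) : ℝ) : ℂ)

/-- `∑_{v ∉ S} ∑_{k ≥ 1} (∑_i a_{i,v}^k) / k · (N v)^{-kσ}` -/
noncomputable def logStd {n : ℕ} (a : Places S → Fin n → ℂ) (σ : ℝ) : ℂ := ∑' x : Places S × ℕ, stdTerm a σ x

/-- the partial standard `L`-function is finite and not zero at `1` -/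
def Regular {n : ℕ} (a : Places S → Fin n → ℂ) : Prop :=
  ∃ c : ℂ, c ≠ 0 ∧ Tendsto (fun σ : ℝ => Complex.exp (logStd a σ)) (𝓝[>] 1) (𝓝 c)

/-- `(N v)^{-σ}` -/
noncomputable def ww (σ : ℝ) (v : Places S) : ℝ := (Nm v.1 : ℝ) ^ (-σ)

theorem two_le (v : HeightOneSpectrum (𝓞 K)) : 2 ≤ Nm v := Pool.Agent.H921R2.TatePole.two_le_nm v

theorem ww_pos (σ : ℝ) (v : Places S) : 0 < ww σ v := by
  unfold ww
  have := two_le v.1
  have h : (0 : ℝ) < (Nm v.1 : ℝ) := by exact_mod_cast (by omega : 0 < Nm v.1)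
  positivity

theorem ww_le {σ : ℝ} (hσ : 1 ≤ σ) (v : Places S) : ww σ v ≤ 1 / 2 := by
  unfold ww
  have h2 : (2 : ℝ) ≤ (Nm v.1 : ℝ) := by exact_mod_cast two_le v.1
  calc (Nm v.1 : ℝ) ^ (-σ) ≤ (Nm v.1 : ℝ) ^ (-1 : ℝ) :=
        Real.rpow_le_rpow_of_exponent_le (by linarith) (by linarith)
    _ = (Nm v.1 : ℝ)⁻¹ := Real.rpow_neg_one _
    _ ≤ 1 / 2 := by
        rw [one_div]
        exact inv_anti₀ (by norm_num) h2

theorem ww_summable {σ : ℝ} (hσ : 1 < σ) : Summable (ww (S := S) σ) :=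
  (Pool.Agent.H921R2.TatePole.nm_summable (K := K) hσ).subtype _

/-- `∑_{v ∉ S} (N v)^{-σ} = log (1 / (σ - 1)) + O(1)` -/
theorem ww_bdd : Bdd (fun σ => ∑' v : Places S, ww σ v - Lam σ) := by
  classical
  obtain ⟨C, hC⟩ := Pool.Agent.H921R2.TatePole.prime_sum_bdd (K := K)
  refine ⟨C + S.card, ?_⟩
  filter_upwards [hC, self_mem_nhdsWithin] with σ h1 h2
  have hσ : (1 : ℝ) < σ := h2
  have hs := Pool.Agent.H921R2.TatePole.nm_summable (K := K) hσ
  set f : HeightOneSpectrum (𝓞 K) → ℝ := fun v => (Pool.Agent.H921R2.TatePole.nm v : ℝ) ^ (-σ) with hf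
  have e1 : ∑ v ∈ S, f v + ∑' v : Places S, ww σ v = ∑' v, f v := by
    have := hs.sum_add_tsum_compl (s := S)
    exact this
  have e2 : 0 ≤ ∑ v ∈ S, f v := Finset.sum_nonneg fun v _ => by positivity
  have e3 : ∑ v ∈ S, f v ≤ S.card := by
    calc ∑ v ∈ S, f v ≤ ∑ _v ∈ S, (1 : ℝ) := by
          refine Finset.sum_le_sum fun v _ => ?_
          have h3 : (1 : ℝ) ≤ (Nm v : ℝ) := by
            have := two_le v
            exact_mod_cast (by omega : 1 ≤ Nm v)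
          exact Real.rpow_le_one_of_one_le_of_nonpos h3 (by linarith)
      _ = S.card := by simp
  rw [abs_le] at h1 ⊢
  constructor <;> linarith [h1.1, h1.2]

/-! ### Rankin-Selberg sums -/

theorem rsTerm_nonneg {n : ℕ} (a : Places S → Fin n → ℂ) (σ : ℝ) (x : Places S × ℕ) : 0 ≤ rsTerm a σ x := by
  unfold rsTerm
  have := (ww_pos σ x.1).le
  unfold ww at this
  positivity

theorem rs_sum {n : ℕ} {a : Places S → Fin n → ℂ} {m : ℕ} (h : RSPole a m) :
    (∀ σ : ℝ, 1 < σ → Summable fun v : Places S => ‖∑ i, a v i‖ ^ 2 * ww σ v) ∧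
    ∃ C : ℝ, ∀ᶠ σ : ℝ in 𝓝[>] 1, ∑' v : Places S, ‖∑ i, a v i‖ ^ 2 * ww σ v ≤ m * Lam σ + C := by
  obtain ⟨hs, c, hc, ht⟩ := h
  have hinj : Function.Injective fun v : Places S => ((v, 0) : Places S × ℕ) := fun v w hvw => (Prod.ext_iff.1 hvw).1
  have he : ∀ σ : ℝ, ∀ v : Places S, rsTerm a σ (v, 0) = ‖∑ i, a v i‖ ^ 2 * ww σ v := by
    intro σ v
    unfold rsTerm ww
    simp
  have hs0 : ∀ σ : ℝ, 1 < σ → Summable fun v : Places S => ‖∑ i, a v i‖ ^ 2 * ww σ v := fun σ hσ => by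
    refine ((hs σ hσ).comp_injective hinj).congr fun v => ?_
    exact he σ v
  refine ⟨hs0, Real.log c + 1, ?_⟩
  have hlog := ht.log hc.ne'
  filter_upwards [hlog.eventually (gt_mem_nhds (show Real.log c < Real.log c + 1 by linarith)),
    self_mem_nhdsWithin] with σ h1 h2
  have hσ : (1 : ℝ) < σ := h2
  have hσ0 : 0 < σ - 1 := by linarith
  rw [Real.log_mul (by positivity) (Real.exp_pos _).ne', Real.log_exp, Real.log_pow] at h1
  have h3 : Lam σ = - Real.log (σ - 1) := by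
    unfold Lam
    rw [one_div, Real.log_inv]
  have h4 : ∑' v : Places S, ‖∑ i, a v i‖ ^ 2 * ww σ v ≤ logRS a σ := by
    unfold logRS
    rw [← tsum_congr (he σ)]
    exact Summable.tsum_le_tsum_of_inj (fun v : Places S => ((v, 0) : Places S × ℕ)) hinj
      (fun x _ => rsTerm_nonneg a σ x) (fun v => le_rfl) ((hs σ hσ).comp_injective hinj) (hs σ hσ)
  rw [h3]
  have h5 : logRS a σ < (m : ℝ) * (-Real.log (σ - 1)) + (Real.log c + 1) := by linarith
  linarith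

/-! ### the standard `L`-function -/

theorem norm_stdTerm {n : ℕ} (a : Places S → Fin n → ℂ) (σ : ℝ) (x : Places S × ℕ) :
    ‖stdTerm a σ x‖ = ‖∑ i, a x.1 i ^ (x.2 + 1)‖ / ((x.2 : ℝ) + 1) * (ww σ x.1) ^ (x.2 + 1) := by
  unfold stdTerm
  have h1 := ww_pos σ x.1
  rw [norm_mul, norm_div, Complex.norm_real, Real.norm_of_nonneg (by unfold ww at h1; positivity)]
  have h2 : ‖((x.2 : ℂ) + 1)‖ = (x.2 : ℝ) + 1 := by
    have : ((x.2 : ℂ) + 1) = (((x.2 : ℝ) + 1 : ℝ) : ℂ) := by push_cast; rfl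
    rw [this, Complex.norm_real, Real.norm_of_nonneg (by positivity)]
  rw [h2]
  rfl

theorem geo_summable {σ : ℝ} (hσ : 1 < σ) : Summable fun x : Places S × ℕ => (ww σ x.1) ^ (x.2 + 1) := by
  have h1 : Summable fun x : Places S × ℕ => ww σ x.1 * (1 / 2 : ℝ) ^ x.2 :=
    (ww_summable hσ).mul_of_nonneg (summable_geometric_of_lt_one (by norm_num) (by norm_num))
      (fun v => (ww_pos σ v).le) (fun k => by positivity)
  refine Summable.of_nonneg_of_le (fun x => by have := ww_pos σ x.1; positivity) (fun x => ?_) h1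
  rw [pow_succ, mul_comm]
  refine mul_le_mul_of_nonneg_left ?_ (ww_pos σ x.1).le
  exact pow_le_pow_left₀ (ww_pos σ x.1).le (ww_le hσ.le x.1) _

theorem std_summable {n : ℕ} {a : Places S → Fin n → ℂ} (hs : ∀ σ : ℝ, 1 < σ → Summable (rsTerm a σ)) {σ : ℝ}
    (hσ : 1 < σ) : Summable (stdTerm a σ) := by
  refine Summable.of_norm ?_
  refine Summable.of_nonneg_of_le (fun x => norm_nonneg _) (fun x => ?_) ((hs σ hσ).add (geo_summable (S := S) hσ))
  rw [norm_stdTerm]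
  unfold rsTerm
  set t := ‖∑ i, a x.1 i ^ (x.2 + 1)‖ with ht
  have h0 : 0 ≤ t := norm_nonneg _
  have hw := ww_pos σ x.1
  have h1 : (Nm x.1.1 : ℝ) ^ (-σ) = ww σ x.1 := rfl
  rw [h1]
  have h2 : 0 < (ww σ x.1) ^ (x.2 + 1) := by positivity
  have h3 : (1 : ℝ) ≤ (x.2 : ℝ) + 1 := by linarith [(Nat.cast_nonneg x.2 : (0 : ℝ) ≤ (x.2 : ℝ))]
  have h4 : t / ((x.2 : ℝ) + 1) ≤ t ^ 2 / ((x.2 : ℝ) + 1) + 1 := by
    rw [div_add_one (by positivity), div_le_div_iff_of_pos_right (by positivity)]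
    nlinarith [sq_nonneg (t - 1)]
  calc t / ((x.2 : ℝ) + 1) * (ww σ x.1) ^ (x.2 + 1) ≤ (t ^ 2 / ((x.2 : ℝ) + 1) + 1) * (ww σ x.1) ^ (x.2 + 1) :=
        mul_le_mul_of_nonneg_right h4 h2.le
    _ = _ := by ring

theorem tail_summable : Summable fun x : Places S × ℕ => (ww (3 / 4) x.1) ^ (x.2 + 2) := by
  have h1 : Summable fun x : Places S × ℕ => ww (3 / 2) x.1 * (3 / 5 : ℝ) ^ x.2 :=
    (ww_summable (by norm_num)).mul_of_nonneg (summable_geometric_of_lt_one (by norm_num) (by norm_num))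
      (fun v => (ww_pos _ v).le) (fun k => by positivity)
  refine Summable.of_nonneg_of_le (fun x => by have := ww_pos (3 / 4) x.1; positivity) (fun x => ?_) h1
  have e1 : (ww (3 / 4) x.1) ^ (x.2 + 2) = ww (3 / 2) x.1 * (ww (3 / 4) x.1) ^ x.2 := by
    rw [pow_add, mul_comm]
    congr 1
    unfold ww
    rw [← Real.rpow_natCast, ← Real.rpow_mul (by positivity)]
    norm_num
  rw [e1]
  refine mul_le_mul_of_nonneg_left ?_ (ww_pos _ x.1).le
  refine pow_le_pow_left₀ (ww_pos _ x.1).le ?_ _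
  have h2 : (2 : ℝ) ≤ (Nm x.1.1 : ℝ) := by exact_mod_cast two_le x.1.1
  have h3 : ww (3 / 4) x.1 ≤ (2 : ℝ) ^ (-(3 / 4) : ℝ) := by
    unfold ww
    exact Real.rpow_le_rpow_of_nonpos (by norm_num) h2 (by norm_num)
  refine h3.trans ?_
  have h4 : ((2 : ℝ) ^ (-(3 / 4) : ℝ)) ^ 4 ≤ (3 / 5) ^ 4 := by
    rw [← Real.rpow_natCast, ← Real.rpow_mul (by norm_num)]
    norm_num
  exact le_of_pow_le_pow_left₀ (by norm_num) (by norm_num) h4

theorem std_tail {n : ℕ} {a : Places S → Fin n → ℂ} (hs : ∀ σ : ℝ, 1 < σ → Summable (rsTerm a σ)) :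
    ∃ C : ℝ, ∀ σ : ℝ, 1 < σ → ‖∑' x : Places S × ℕ, stdTerm a σ (x.1, x.2 + 1)‖ ≤ C := by
  have hinj : Function.Injective fun x : Places S × ℕ => ((x.1, x.2 + 1) : Places S × ℕ) := by
    rintro ⟨v, k⟩ ⟨w, l⟩ h
    simp only [Prod.mk.injEq, add_left_inj] at h
    rw [Prod.mk.injEq]
    exact h
  have h1 := (hs (5 / 4) (by norm_num)).comp_injective hinj
  have h2 := h1.add (tail_summable (S := S))
  refine ⟨∑' x : Places S × ℕ, (rsTerm a (5 / 4) (x.1, x.2 + 1) + (ww (3 / 4) x.1) ^ (x.2 + 2)), fun σ hσ => ?_⟩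
  refine tsum_of_norm_bounded h2.hasSum fun x => ?_
  rw [norm_stdTerm]
  unfold rsTerm
  simp only [Function.comp_apply]
  set t := ‖∑ i, a x.1 i ^ (x.2 + 1 + 1)‖ with ht
  have h0 : 0 ≤ t := norm_nonneg _
  have e1 : (Nm x.1.1 : ℝ) ^ (-(5 / 4) : ℝ) = ww (5 / 4) x.1 := rfl
  rw [e1]
  have hn : (1 : ℝ) ≤ (Nm x.1.1 : ℝ) := by
    have := two_le x.1.1
    exact_mod_cast (by omega : 1 ≤ Nm x.1.1)
  have hw1 : ww σ x.1 ≤ ww 1 x.1 := by
    unfold ww
    exact Real.rpow_le_rpow_of_exponent_le hn (by linarith)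
  have hw2 : ww 1 x.1 ^ 2 = ww (5 / 4) x.1 * ww (3 / 4) x.1 := by
    unfold ww
    rw [← Real.rpow_natCast, ← Real.rpow_mul (by positivity), ← Real.rpow_add (by linarith)]
    norm_num
  set A := (ww (5 / 4) x.1) ^ (x.2 + 1 + 1) with hA
  set B := (ww (3 / 4) x.1) ^ (x.2 + 2) with hB
  have hA0 : 0 < A := by have := ww_pos (5 / 4) x.1; positivity
  have hB0 : 0 < B := by have := ww_pos (3 / 4) x.1; positivity
  set D := (ww 1 x.1) ^ (x.2 + 1 + 1) with hD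
  have hD0 : 0 < D := by have := ww_pos 1 x.1; positivity
  have hAB : D ^ 2 = A * B := by
    rw [hD, hA, hB, ← pow_mul, mul_comm (x.2 + 1 + 1) 2, pow_mul, hw2, mul_pow]
  have hle : (ww σ x.1) ^ (x.2 + 1 + 1) ≤ D := pow_le_pow_left₀ (ww_pos σ x.1).le hw1 _
  have hc : ((((x.2 + 1 : ℕ) : ℝ)) + 1) = (x.2 : ℝ) + 2 := by push_cast; ring
  rw [hc]
  have hx : (1 : ℝ) ≤ (x.2 : ℝ) + 2 := by linarith [(Nat.cast_nonneg x.2 : (0 : ℝ) ≤ (x.2 : ℝ))]
  have hx0 : (0 : ℝ) < (x.2 : ℝ) + 2 := by linarith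
  calc t / ((x.2 : ℝ) + 2) * (ww σ x.1) ^ (x.2 + 1 + 1) ≤ t / ((x.2 : ℝ) + 2) * D :=
        mul_le_mul_of_nonneg_left hle (by positivity)
    _ ≤ t ^ 2 / ((x.2 : ℝ) + 2) * A + B := by
        rw [div_mul_eq_mul_div, div_mul_eq_mul_div, div_add' _ _ _ hx0.ne', div_le_div_iff_of_pos_right hx0]
        have h5 : t * D ≤ t ^ 2 * A + B := by
          have h6 : 0 ≤ (t ^ 2 * A - B) ^ 2 := sq_nonneg _
          have h7 : (t * D) ^ 2 ≤ (t ^ 2 * A + B) ^ 2 := by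
            have h8 : (t * D) ^ 2 = t ^ 2 * A * B := by rw [mul_pow, hAB]; ring
            rw [h8]
            nlinarith [mul_nonneg (mul_nonneg (sq_nonneg t) hA0.le) hB0.le]
          exact le_of_sq_le_sq h7 (by positivity)
        nlinarith
where
  le_of_sq_le_sq {x y : ℝ} (h : x ^ 2 ≤ y ^ 2) (hy : 0 ≤ y) : x ≤ y := abs_le_of_sq_le_sq' h hy |>.2

theorem std_sum {n : ℕ} {a : Places S → Fin n → ℂ} {m : ℕ} (h : RSPole a m) (hr : Regular a) :
    (∀ σ : ℝ, 1 < σ → Summable fun v : Places S => (∑ i, a v i).re * ww σ v) ∧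
    ∃ C : ℝ, ∀ᶠ σ : ℝ in 𝓝[>] 1, |∑' v : Places S, (∑ i, a v i).re * ww σ v| ≤ C := by
  have hinj : Function.Injective fun v : Places S => ((v, 0) : Places S × ℕ) := fun v w hvw => (Prod.ext_iff.1 hvw).1
  have he : ∀ σ : ℝ, ∀ v : Places S, (stdTerm a σ (v, 0)).re = (∑ i, a v i).re * ww σ v := by
    intro σ v
    unfold stdTerm ww
    simp only [zero_add, pow_one, Nat.cast_zero, div_one]
    rw [Complex.re_mul_ofReal]
  have hcomp : ∀ σ : ℝ, 1 < σ → Summable fun v : Places S => stdTerm a σ (v, 0) := fun σ hσ =>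
    (std_summable h.1 hσ).comp_injective hinj
  have hsum : ∀ σ : ℝ, 1 < σ → Summable fun v : Places S => (∑ i, a v i).re * ww σ v := fun σ hσ => by
    have h1 := (Complex.hasSum_re (hcomp σ hσ).hasSum).summable
    exact h1.congr fun v => he σ v
  obtain ⟨C, hC⟩ := std_tail h.1
  obtain ⟨c, hc, ht⟩ := hr
  have hcn : 0 < ‖c‖ := norm_pos_iff.2 hc
  have hlog := (ht.norm).log hcn.ne'
  have hB := Bdd.of_tendsto hlog
  obtain ⟨C', hC'⟩ := hB
  refine ⟨hsum, C' + C, ?_⟩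
  filter_upwards [hC', self_mem_nhdsWithin] with σ h1 h2
  have hσ : (1 : ℝ) < σ := h2
  rw [Complex.norm_exp, Real.log_exp] at h1
  have hS := std_summable h.1 hσ
  have hfib := hS.prod_factor
  have htail : Summable fun v : Places S => ∑' k : ℕ, stdTerm a σ (v, k + 1) := by
    have hinj2 : Function.Injective fun x : Places S × ℕ => ((x.1, x.2 + 1) : Places S × ℕ) := by
      rintro ⟨v, k⟩ ⟨w, l⟩ h
      simp only [Prod.mk.injEq, add_left_inj] at h
      rw [Prod.mk.injEq]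
      exact h
    exact (hS.comp_injective hinj2).prod
  have hinj2 : Function.Injective fun x : Places S × ℕ => ((x.1, x.2 + 1) : Places S × ℕ) := by
    rintro ⟨v, k⟩ ⟨w, l⟩ h
    simp only [Prod.mk.injEq, add_left_inj] at h
    rw [Prod.mk.injEq]
    exact h
  have hS2 := hS.comp_injective hinj2
  have e1 : logStd a σ = ∑' v : Places S, stdTerm a σ (v, 0) +
      ∑' x : Places S × ℕ, stdTerm a σ (x.1, x.2 + 1) := by
    unfold logStd
    rw [hS.tsum_prod]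
    have e2 : ∀ v : Places S, ∑' k : ℕ, stdTerm a σ (v, k) =
        stdTerm a σ (v, 0) + ∑' k : ℕ, stdTerm a σ (v, k + 1) := fun v => (hfib v).tsum_eq_zero_add
    rw [tsum_congr e2, (hcomp σ hσ).tsum_add htail]
    congr 1
    exact (hS2.tsum_prod).symm
  have e3 : ∑' v : Places S, (∑ i, a v i).re * ww σ v = (∑' v : Places S, stdTerm a σ (v, 0)).re := by
    rw [Complex.re_tsum (hcomp σ hσ)]
    exact tsum_congr fun v => (he σ v).symm
  rw [e3]
  have e4 : (∑' v : Places S, stdTerm a σ (v, 0)).re =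
      (logStd a σ).re - (∑' x : Places S × ℕ, stdTerm a σ (x.1, x.2 + 1)).re := by
    rw [e1, Complex.add_re]
    ring
  rw [e4]
  refine (abs_sub _ _).trans (add_le_add h1 ?_)
  exact (Complex.abs_re_le_norm _).trans (hC σ hσ)

end Pool.Agent.H406.GLF
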