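import Mathlib

/-! Unitary parameters of `GL(4)`: elementary inequalities between a nontempered parameter, the trace and the
trace of the exterior square, in general and for symplectic parameters. -/

set_option autoImplicit false

namespace Pool.Agent.H406.GLF

/-- the parameters of a unitary representation -/
def Unitary {n : ℕ} (a : Fin n → ℂ) : Prop :=
  (∀ i, a i ≠ 0) ∧ ∃ τ : Equiv.Perm (Fin n), ∀ i, a (τ i) = ((starRingEnd ℂ) (a i))⁻¹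

/-- the parameters of the exterior square -/
noncomputable def ext2 (a : Fin 4 → ℂ) : Fin 6 → ℂ :=
  ![a 0 * a 1, a 0 * a 2, a 0 * a 3, a 1 * a 2, a 1 * a 3, a 2 * a 3]

/-- the parameters of the five-dimensional lift of symplectic parameters with the similitude `w` -/
noncomputable def std5 (a : Fin 4 → ℂ) (w : ℂ) : Fin 5 → ℂ :=
  ![a 0 * a 1 / w, a 0 * a 2 / w, 1, a 1 * a 3 / w, a 2 * a 3 / w]

theorem univ4 : ∀ i j k l : Fin 4, i ≠ j → i ≠ k → i ≠ l → j ≠ k → j ≠ l → k ≠ l →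
    (Finset.univ : Finset (Fin 4)) = {i, j, k, l} := by decide

theorem others : ∀ i j : Fin 4, i ≠ j → ∃ k l, i ≠ k ∧ i ≠ l ∧ j ≠ k ∧ j ≠ l ∧ k ≠ l := by decide

theorem sum4 (f : Fin 4 → ℂ) {i j k l : Fin 4} (h1 : i ≠ j) (h2 : i ≠ k) (h3 : i ≠ l)
    (h4 : j ≠ k) (h5 : j ≠ l) (h6 : k ≠ l) : ∑ x, f x = f i + (f j + (f k + f l)) := by
  rw [univ4 i j k l h1 h2 h3 h4 h5 h6, Finset.sum_insert (by simp [h1, h2, h3]),
    Finset.sum_insert (by simp [h4, h5]), Finset.sum_insert (by simp [h6]), Finset.sum_singleton]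

theorem prod4 (f : Fin 4 → ℝ) {i j k l : Fin 4} (h1 : i ≠ j) (h2 : i ≠ k) (h3 : i ≠ l)
    (h4 : j ≠ k) (h5 : j ≠ l) (h6 : k ≠ l) : ∏ x, f x = f i * (f j * (f k * f l)) := by
  rw [univ4 i j k l h1 h2 h3 h4 h5 h6, Finset.prod_insert (by simp [h1, h2, h3]),
    Finset.prod_insert (by simp [h4, h5]), Finset.prod_insert (by simp [h6]), Finset.prod_singleton]

theorem two_ext2 (a : Fin 4 → ℂ) : 2 * ∑ x, ext2 a x = (∑ x, a x) ^ 2 - ∑ x, a x ^ 2 := by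
  simp only [ext2, Fin.sum_univ_succ, Fin.sum_univ_zero]
  simp
  ring

theorem prod_norm {n : ℕ} {a : Fin n → ℂ} (h : Unitary a) : ∏ i, ‖a i‖ = 1 := by
  obtain ⟨h0, τ, hτ⟩ := h
  have hpos : 0 < ∏ i, ‖a i‖ := Finset.prod_pos fun i _ => norm_pos_iff.2 (h0 i)
  have e : ∏ i, ‖a i‖ = (∏ i, ‖a i‖)⁻¹ := by
    rw [← Finset.prod_inv_distrib]
    rw [← Equiv.prod_comp τ (fun i => ‖a i‖)]
    refine Finset.prod_congr rfl fun i _ => ?_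
    rw [hτ, norm_inv, RCLike.norm_conj]
  have e2 : (∏ i, ‖a i‖) * (∏ i, ‖a i‖) = 1 := by
    nth_rewrite 1 [e]
    exact inv_mul_cancel₀ hpos.ne'
  nlinarith

/-- a nontempered parameter has a norm larger than one -/
theorem exists_large {n : ℕ} {a : Fin n → ℂ} (h : Unitary a) (ht : ¬ ∀ i, ‖a i‖ = 1) : ∃ i, 1 < ‖a i‖ := by
  obtain ⟨h0, τ, hτ⟩ := h
  push Not at ht
  obtain ⟨i, hi⟩ := ht
  rcases lt_or_gt_of_ne hi with h1 | h1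
  · refine ⟨τ i, ?_⟩
    rw [hτ, norm_inv, RCLike.norm_conj]
    exact (one_lt_inv₀ (norm_pos_iff.2 (h0 i))).2 h1
  · exact ⟨i, h1⟩

theorem conj_add (z : ℂ) (hz : z ≠ 0) : ‖z + ((starRingEnd ℂ) z)⁻¹‖ = ‖z‖ + ‖z‖⁻¹ := by
  have hn : 0 < ‖z‖ := norm_pos_iff.2 hz
  have hc : (starRingEnd ℂ) z ≠ 0 := (map_ne_zero _).2 hz
  have h5 : (starRingEnd ℂ) z * z = ((‖z‖ ^ 2 : ℝ) : ℂ) := by
    rw [mul_comm, Complex.mul_conj, Complex.normSq_eq_norm_sq]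
  have h6 : ((starRingEnd ℂ) z)⁻¹ = ((‖z‖ ^ 2 : ℝ) : ℂ)⁻¹ * z := by
    rw [← h5]
    field_simp
  have e1 : z + ((starRingEnd ℂ) z)⁻¹ = ((1 + (‖z‖ ^ 2)⁻¹ : ℝ) : ℂ) * z := by
    rw [h6]
    push_cast
    ring
  rw [e1, norm_mul, Complex.norm_real, Real.norm_of_nonneg (by positivity)]
  field_simp

/-- **`GL(4)`.** -/
theorem gl4 {a : Fin 4 → ℂ} (h : Unitary a) {i : Fin 4} (hi : ‖a i‖ ≠ 1) :
    (‖a i‖ + ‖a i‖⁻¹) ^ 2 - 2 ≤ ‖∑ x, ext2 a x‖ + (‖a i‖ + ‖a i‖⁻¹) * ‖∑ x, a x‖ := by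
  have hp := prod_norm h
  obtain ⟨h0, τ, hτ⟩ := h
  have hpos : ∀ i, 0 < ‖a i‖ := fun i => norm_pos_iff.2 (h0 i)
  obtain ⟨j, hj⟩ : ∃ j, a j = ((starRingEnd ℂ) (a i))⁻¹ := ⟨τ i, hτ i⟩
  have hjn : ‖a j‖ = ‖a i‖⁻¹ := by rw [hj, norm_inv, RCLike.norm_conj]
  have hij : i ≠ j := by
    rintro rfl
    apply hi
    have h1 : ‖a i‖ * ‖a i‖ = 1 := by
      nth_rewrite 1 [hjn]
      exact inv_mul_cancel₀ (hpos i).ne'
    nlinarith [hpos i]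
  obtain ⟨k, l, h2, h3, h4, h5, h6⟩ := others i j hij
  rw [prod4 (fun x => ‖a x‖) hij h2 h3 h4 h5 h6] at hp
  have hkl : ‖a k‖ * ‖a l‖ = 1 := by
    rw [hjn] at hp
    rw [← mul_assoc, mul_inv_cancel₀ (hpos i).ne', one_mul] at hp
    exact hp
  have hs := sum4 a hij h2 h3 h4 h5 h6
  have hs2 := sum4 (fun x => a x ^ 2) hij h2 h3 h4 h5 h6
  have hext := two_ext2 a
  rw [hs2] at hext
  have hR : ‖a i + a j‖ = ‖a i‖ + ‖a i‖⁻¹ := by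
    rw [hj]
    exact conj_add _ (h0 i)
  have key : (a i + a j) ^ 2 = a i * a j + a k * a l - ∑ x, ext2 a x + (a i + a j) * ∑ x, a x := by
    have e2 : ∑ x, ext2 a x = ((∑ x, a x) ^ 2 - (a i ^ 2 + (a j ^ 2 + (a k ^ 2 + a l ^ 2)))) / 2 := by
      rw [← hext]
      ring
    rw [e2, hs]
    ring
  have h7 : ‖a i * a j‖ = 1 := by
    rw [norm_mul, hjn, mul_inv_cancel₀ (hpos i).ne']
  have h8 : ‖a k * a l‖ = 1 := by rw [norm_mul, hkl]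
  have h9 : ‖(a i + a j) ^ 2‖ ≤ ‖a i * a j‖ + ‖a k * a l‖ + ‖∑ x, ext2 a x‖ + ‖(a i + a j) * ∑ x, a x‖ := by
    rw [key]
    refine (norm_add_le _ _).trans (add_le_add ?_ le_rfl)
    refine (norm_sub_le _ _).trans (add_le_add ?_ le_rfl)
    exact norm_add_le _ _
  rw [norm_pow, norm_mul (a i + a j), hR, h7, h8] at h9
  linarith

/-! ### symplectic parameters -/

theorem sum5 (a : Fin 4 → ℂ) (w : ℂ) (hw : w ≠ 0) :
    ∑ x, std5 a w x = 1 + (a 0 + a 3) * (a 1 + a 2) / w := by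
  simp only [std5, Fin.sum_univ_succ, Fin.sum_univ_zero]
  simp
  field_simp
  ring

/-- `u = 1 + x (e₁ - x) / w` -/
theorem sum5' (a : Fin 4 → ℂ) {w : ℂ} (hw : w ≠ 0) (i : Fin 4) :
    ∑ x, std5 a w x = 1 + (a i + a (Fin.rev i)) * (∑ x, a x - (a i + a (Fin.rev i))) / w := by
  rw [sum5 a w hw]
  have hs : ∑ x, a x = a 0 + a 1 + a 2 + a 3 := Fin.sum_univ_four a
  rw [hs]
  fin_cases i
  · show _ = 1 + (a 0 + a 3) * _ / w
    have : a (Fin.rev (0 : Fin 4)) = a 3 := rfl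
    congr 1
    show _ = (a 0 + a 3) * (a 0 + a 1 + a 2 + a 3 - (a 0 + a 3)) / w
    ring
  · show _ = 1 + (a 1 + a 2) * (a 0 + a 1 + a 2 + a 3 - (a 1 + a 2)) / w
    ring
  · show _ = 1 + (a 2 + a 1) * (a 0 + a 1 + a 2 + a 3 - (a 2 + a 1)) / w
    ring
  · show _ = 1 + (a 3 + a 0) * (a 0 + a 1 + a 2 + a 3 - (a 3 + a 0)) / w
    ring

theorem sum_pairs (a : Fin 4 → ℂ) : ∀ i j : Fin 4, j ≠ i → j ≠ Fin.rev i →
    ∑ x, a x - (a i + a (Fin.rev i)) = a j + a (Fin.rev j) := by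
  have hs : ∑ x, a x = a 0 + a 1 + a 2 + a 3 := Fin.sum_univ_four a
  have r0 : Fin.rev (0 : Fin 4) = 3 := rfl
  have r1 : Fin.rev (1 : Fin 4) = 2 := rfl
  have r2 : Fin.rev (2 : Fin 4) = 1 := rfl
  have r3 : Fin.rev (3 : Fin 4) = 0 := rfl
  rw [hs]
  intro i j h1 h2
  fin_cases i <;> fin_cases j <;> simp [r0, r1, r2, r3] at h1 h2 ⊢ <;> ring

/-- symplectic parameters -/
def Sympl (a : Fin 4 → ℂ) (w : ℂ) : Prop := ‖w‖ = 1 ∧ ∀ i, a i * a (Fin.rev i) = w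

/-- **The first kind.** -/
theorem first_kind {a : Fin 4 → ℂ} {w : ℂ} (h : Unitary a) (hs : Sympl a w) {i : Fin 4} (hi : ‖a i‖ ≠ 1)
    (hk : ¬ ∃ ρ : ℝ, 0 < ρ ∧ a i ^ 2 = ρ * w) :
    ∃ u : ℝ, ∑ x, std5 a w x = u ∧ (‖a i‖ + ‖a i‖⁻¹) ^ 2 - 3 ≤ u := by
  obtain ⟨h0, τ, hτ⟩ := h
  have hw : w ≠ 0 := norm_ne_zero_iff.1 (by rw [hs.1]; exact one_ne_zero)
  have hpos : ∀ i, 0 < ‖a i‖ := fun i => norm_pos_iff.2 (h0 i)
  obtain ⟨j, hj⟩ : ∃ j, a j = ((starRingEnd ℂ) (a i))⁻¹ := ⟨τ i, hτ i⟩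
  have hjn : ‖a j‖ = ‖a i‖⁻¹ := by rw [hj, norm_inv, RCLike.norm_conj]
  have hji : j ≠ i := by
    rintro rfl
    apply hi
    have h1 : ‖a j‖ * ‖a j‖ = 1 := by
      nth_rewrite 1 [hjn]
      exact inv_mul_cancel₀ (hpos j).ne'
    nlinarith [hpos j]
  have hcz : (starRingEnd ℂ) (a i) ≠ 0 := (map_ne_zero _).2 (h0 i)
  have hzz : a i * (starRingEnd ℂ) (a i) = ((‖a i‖ ^ 2 : ℝ) : ℂ) := by
    rw [Complex.mul_conj, Complex.normSq_eq_norm_sq]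
  have hjr : j ≠ Fin.rev i := by
    intro hjr
    apply hk
    refine ⟨‖a i‖ ^ 2, by have := hpos i; positivity, ?_⟩
    have h1 := hs.2 i
    rw [← hjr, hj] at h1
    rw [← h1, ← hzz]
    field_simp
  have hri : a (Fin.rev i) = w / a i := by
    rw [← hs.2 i, mul_div_cancel_left₀ _ (h0 i)]
  have hrj : a (Fin.rev j) = w * (starRingEnd ℂ) (a i) := by
    have h1 := hs.2 j
    rw [hj] at h1
    rw [← h1]
    field_simp
  have hwc : w * (starRingEnd ℂ) w = 1 := by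
    rw [Complex.mul_conj, Complex.normSq_eq_norm_sq, hs.1]
    norm_num
  have hcw : (starRingEnd ℂ) w ≠ 0 := (map_ne_zero _).2 hw
  have hval : ∑ x, std5 a w x = ((1 + ‖a i + w / a i‖ ^ 2 : ℝ) : ℂ) := by
    rw [sum5' a hw i, sum_pairs a i j hji hjr, hri, hrj, hj]
    have e1 : ((‖a i + w / a i‖ ^ 2 : ℝ) : ℂ) = (a i + w / a i) * (starRingEnd ℂ) (a i + w / a i) := by
      rw [Complex.mul_conj, Complex.normSq_eq_norm_sq]
    rw [Complex.ofReal_add, e1, Complex.ofReal_one, map_add, map_div₀]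
    have e2 : (starRingEnd ℂ) w = w⁻¹ := by
      exact eq_inv_of_mul_eq_one_right hwc
    rw [e2, mul_div_assoc]
    congr 2
    field_simp
    ring
  refine ⟨_, hval, ?_⟩
  have h1 : ‖a i‖ - ‖a i‖⁻¹ ≤ ‖a i + w / a i‖ := by
    have h2 := norm_sub_norm_le (a i) (-(w / a i))
    rw [sub_neg_eq_add, norm_neg, norm_div, hs.1, one_div] at h2
    exact h2
  have h1' : ‖a i‖⁻¹ - ‖a i‖ ≤ ‖a i + w / a i‖ := by
    have h2 := norm_sub_norm_le (w / a i) (-(a i))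
    rw [sub_neg_eq_add, norm_neg, norm_div, hs.1, one_div, add_comm] at h2
    exact h2
  have h2 : ‖a i‖ * ‖a i‖⁻¹ = 1 := mul_inv_cancel₀ (hpos i).ne'
  have h3 : (‖a i‖ - ‖a i‖⁻¹) ^ 2 ≤ ‖a i + w / a i‖ ^ 2 := by
    rw [← sq_abs (‖a i‖ - ‖a i‖⁻¹)]
    refine pow_le_pow_left₀ (abs_nonneg _) ?_ 2
    rw [abs_le]
    constructor <;> linarith
  nlinarith

/-- **The second kind.** -/
theorem second_kind {a : Fin 4 → ℂ} {w : ℂ} (h : Unitary a) (hs : Sympl a w) {i : Fin 4}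
    (hk : ∃ ρ : ℝ, 0 < ρ ∧ a i ^ 2 = ρ * w) (k : ℝ) :
    (‖a i‖ + ‖a i‖⁻¹) ^ 2 - 1 + k ≤ ‖∑ x, std5 a w x - k‖ + (‖a i‖ + ‖a i‖⁻¹) * ‖∑ x, a x‖ := by
  obtain ⟨h0, -⟩ := h
  have hw : w ≠ 0 := norm_ne_zero_iff.1 (by rw [hs.1]; exact one_ne_zero)
  have hpos : 0 < ‖a i‖ := norm_pos_iff.2 (h0 i)
  obtain ⟨ρ, hρ, hz⟩ := hk
  have hρn : ρ = ‖a i‖ ^ 2 := by
    have h1 := congrArg norm hz
    rw [norm_pow, norm_mul, hs.1, mul_one, Complex.norm_real, Real.norm_of_nonneg hρ.le] at h1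
    exact h1.symm
  have hri : a (Fin.rev i) = w / a i := by
    rw [← hs.2 i, mul_div_cancel_left₀ _ (h0 i)]
  set X := a i + a (Fin.rev i) with hX
  have hXw : X ^ 2 / w = (((‖a i‖ + ‖a i‖⁻¹) ^ 2 : ℝ) : ℂ) := by
    have hρ0 : (ρ : ℂ) ≠ 0 := by exact_mod_cast hρ.ne'
    have e1 : X ^ 2 / w = a i ^ 2 / w + 2 + w / a i ^ 2 := by
      rw [hX, hri]
      field_simp [h0 i]
      ring
    rw [e1, hz]
    have e2 : (ρ : ℂ) * w / w = ρ := by field_simp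
    have e3 : w / ((ρ : ℂ) * w) = (ρ : ℂ)⁻¹ := by field_simp
    rw [e2, e3, hρn]
    have e4 : (‖a i‖ + ‖a i‖⁻¹) ^ 2 = ‖a i‖ ^ 2 + 2 + (‖a i‖ ^ 2)⁻¹ := by
      have h2 : ‖a i‖ * ‖a i‖⁻¹ = 1 := mul_inv_cancel₀ hpos.ne'
      rw [inv_pow_eq]
      nlinarith
    rw [e4]
    push_cast
    ring
  have hXn : ‖X‖ = ‖a i‖ + ‖a i‖⁻¹ := by
    have h1 := congrArg norm hXw
    rw [norm_div, hs.1, div_one, norm_pow, Complex.norm_real, Real.norm_of_nonneg (by positivity)] at h1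
    exact (pow_left_inj₀ (norm_nonneg _) (by positivity) (two_ne_zero)).1 h1
  have key : (((‖a i‖ + ‖a i‖⁻¹) ^ 2 - 1 + k : ℝ) : ℂ) = -(∑ x, std5 a w x - k) + X * (∑ x, a x) / w := by
    have e1 := sum5' a hw i
    rw [← hX] at e1
    rw [e1]
    rw [Complex.ofReal_add, Complex.ofReal_sub, ← hXw]
    push_cast
    field_simp
    ring
  have h3 := congrArg norm key
  rw [Complex.norm_real] at h3
  calc (‖a i‖ + ‖a i‖⁻¹) ^ 2 - 1 + k ≤ ‖(‖a i‖ + ‖a i‖⁻¹) ^ 2 - 1 + k‖ := le_abs_self _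
    _ = ‖-(∑ x, std5 a w x - k) + X * (∑ x, a x) / w‖ := h3
    _ ≤ ‖∑ x, std5 a w x - k‖ + ‖X * (∑ x, a x) / w‖ := by
        refine (norm_add_le _ _).trans ?_
        rw [norm_neg]
    _ = _ := by rw [norm_div, hs.1, div_one, norm_mul, hXn]
where
  inv_pow_eq {x : ℝ} : (x ^ 2)⁻¹ = x⁻¹ ^ 2 := by rw [inv_pow]

end Pool.Agent.H406.GLF
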