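import Pool.Agent.H406.GLF.Dens

/-! Densities of the sets of the places with large parameters. -/

set_option autoImplicit false

open NumberField IsDedekindDomain Filter Topology
open Pool.Agent.H921R2.TatePole (Lam Bdd)

namespace Pool.Agent.H406.GLF

variable {K : Type} [Field K] [NumberField K] {S : Finset (HeightOneSpectrum (𝓞 K))}

/-- `∑_{v ∈ Z} (N v)^{-σ} ≤ δ log (1 / (σ - 1)) + C` near `σ = 1` -/
def UpperLE (Z : Set (Places S)) (δ : ℝ) : Prop :=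
  ∃ C : ℝ, ∀ᶠ σ : ℝ in 𝓝[>] 1, ∑' v : Places S, Z.indicator (ww σ) v ≤ δ * Real.log (1 / (σ - 1)) + C

/-- `∑_{v ∈ Z} (N v)^{-σ} ≥ δ log (1 / (σ - 1)) - C` near `σ = 1` -/
def LowerGE (Z : Set (Places S)) (δ : ℝ) : Prop :=
  ∃ C : ℝ, ∀ᶠ σ : ℝ in 𝓝[>] 1, δ * Real.log (1 / (σ - 1)) - C ≤ ∑' v : Places S, Z.indicator (ww σ) v

theorem ind_summable (Z : Set (Places S)) {σ : ℝ} (hσ : 1 < σ) : Summable (Z.indicator (ww σ)) :=
  (ww_summable hσ).indicator _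

theorem Lam_nonneg : ∀ᶠ σ : ℝ in 𝓝[>] 1, 0 ≤ Lam σ := by
  have h : ∀ᶠ σ : ℝ in 𝓝[>] 1, σ < 2 := mem_nhdsWithin_of_mem_nhds (Iio_mem_nhds (by norm_num))
  filter_upwards [h, self_mem_nhdsWithin] with σ h1 h2
  have h3 : (1 : ℝ) < σ := h2
  unfold Lam
  apply Real.log_nonneg
  rw [le_div_iff₀ (by linarith)]
  linarith

theorem UpperLE.mono {Z : Set (Places S)} {δ ε : ℝ} (h : UpperLE Z δ) (hle : δ ≤ ε) : UpperLE Z ε := by
  obtain ⟨C, hC⟩ := h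
  refine ⟨C, ?_⟩
  filter_upwards [hC, Lam_nonneg] with σ h1 h2
  refine h1.trans ?_
  unfold Lam at h2
  nlinarith

theorem UpperLE.union {Z W : Set (Places S)} {δ ε : ℝ} (h : UpperLE Z δ) (h' : UpperLE W ε) :
    UpperLE (Z ∪ W) (δ + ε) := by
  classical
  obtain ⟨C, hC⟩ := h
  obtain ⟨D, hD⟩ := h'
  refine ⟨C + D, ?_⟩
  filter_upwards [hC, hD, self_mem_nhdsWithin] with σ h1 h2 h3
  have hσ : (1 : ℝ) < σ := h3
  have h4 : ∑' v : Places S, (Z ∪ W).indicator (ww σ) v ≤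
      ∑' v : Places S, (Z.indicator (ww σ) v + W.indicator (ww σ) v) := by
    refine Summable.tsum_le_tsum (fun v => ?_) (ind_summable _ hσ)
      ((ind_summable Z hσ).add (ind_summable W hσ))
    have hp := (ww_pos σ v).le
    by_cases hz : v ∈ Z <;> by_cases hw : v ∈ W <;> simp [Set.indicator, hz, hw, hp]
  rw [(ind_summable Z hσ).tsum_add (ind_summable W hσ)] at h4
  linarith

theorem UpperLE.compl {Z : Set (Places S)} {δ : ℝ} (h : UpperLE Z δ) : LowerGE Zᶜ (1 - δ) := by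
  classical
  obtain ⟨C, hC⟩ := h
  obtain ⟨D, hD⟩ := ww_bdd (S := S)
  refine ⟨C + D, ?_⟩
  filter_upwards [hC, hD, self_mem_nhdsWithin] with σ h1 h2 h3
  have hσ : (1 : ℝ) < σ := h3
  have h4 : ∑' v : Places S, Z.indicator (ww σ) v + ∑' v : Places S, Zᶜ.indicator (ww σ) v =
      ∑' v : Places S, ww σ v := by
    rw [← (ind_summable Z hσ).tsum_add (ind_summable Zᶜ hσ)]
    refine tsum_congr fun v => ?_
    by_cases hz : v ∈ Z <;> simp [Set.indicator, hz]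
  rw [abs_le] at h2
  unfold Lam at h2
  linarith [h2.1]

theorem UpperLE.subset {Z W : Set (Places S)} {δ : ℝ} (h : UpperLE W δ) (hs : Z ⊆ W) : UpperLE Z δ := by
  classical
  obtain ⟨C, hC⟩ := h
  refine ⟨C, ?_⟩
  filter_upwards [hC, self_mem_nhdsWithin] with σ h1 h3
  have hσ : (1 : ℝ) < σ := h3
  refine le_trans ?_ h1
  exact Summable.tsum_le_tsum (fun v => Set.indicator_le_indicator_of_subset hs
    (fun v => (ww_pos σ v).le) v) (ind_summable _ hσ) (ind_summable _ hσ)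

theorem LowerGE.subset {Z W : Set (Places S)} {δ : ℝ} (h : LowerGE Z δ) (hs : Z ⊆ W) : LowerGE W δ := by
  classical
  obtain ⟨C, hC⟩ := h
  refine ⟨C, ?_⟩
  filter_upwards [hC, self_mem_nhdsWithin] with σ h1 h3
  have hσ : (1 : ℝ) < σ := h3
  refine h1.trans ?_
  exact Summable.tsum_le_tsum (fun v => Set.indicator_le_indicator_of_subset hs
    (fun v => (ww_pos σ v).le) v) (ind_summable _ hσ) (ind_summable _ hσ)

theorem LowerGE.mono {Z : Set (Places S)} {δ ε : ℝ} (h : LowerGE Z δ) (hle : ε ≤ δ) : LowerGE Z ε := by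
  obtain ⟨C, hC⟩ := h
  refine ⟨C, ?_⟩
  filter_upwards [hC, Lam_nonneg] with σ h1 h2
  refine le_trans ?_ h1
  unfold Lam at h2
  nlinarith

/-- Chebyshev's inequality -/
theorem cheb {P : Places S → ℝ} (hP : ∀ v, 0 ≤ P v) {M A : ℝ} (hA : 0 < A)
    (hs : ∀ σ : ℝ, 1 < σ → Summable fun v => P v * ww σ v)
    (hM : ∃ C : ℝ, ∀ᶠ σ : ℝ in 𝓝[>] 1, ∑' v, P v * ww σ v ≤ M * Lam σ + C) {Z : Set (Places S)}
    (hZ : ∀ v ∈ Z, A ≤ P v) : UpperLE Z (M / A) := by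
  classical
  obtain ⟨C, hC⟩ := hM
  refine ⟨C / A, ?_⟩
  filter_upwards [hC, self_mem_nhdsWithin] with σ h1 h3
  have hσ : (1 : ℝ) < σ := h3
  have h4 : A * ∑' v : Places S, Z.indicator (ww σ) v ≤ ∑' v, P v * ww σ v := by
    rw [← tsum_mul_left]
    refine Summable.tsum_le_tsum (fun v => ?_) ((ind_summable Z hσ).mul_left A) (hs σ hσ)
    have hp := (ww_pos σ v).le
    by_cases hz : v ∈ Z
    · rw [Set.indicator_of_mem hz]
      exact mul_le_mul_of_nonneg_right (hZ v hz) hp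
    · rw [Set.indicator_of_notMem hz, mul_zero]
      exact mul_nonneg (hP v) hp
  have h5 : Lam σ = Real.log (1 / (σ - 1)) := rfl
  rw [← h5]
  have h6 : A * ∑' v : Places S, Z.indicator (ww σ) v ≤ M * Lam σ + C := h4.trans h1
  have h7 : M / A * Lam σ + C / A = (M * Lam σ + C) / A := by ring
  rw [h7, le_div_iff₀ hA, mul_comm]
  exact h6

theorem frac_mono {c X X₀ l : ℝ} (hX : X₀ ≤ X) (h : 0 ≤ l * (X + X₀ - 2 * c) + (X * X₀ - c ^ 2)) :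
    (X₀ - c) ^ 2 * (l + X) ≤ (X - c) ^ 2 * (l + X₀) := by
  have e : (X - c) ^ 2 * (l + X₀) - (X₀ - c) ^ 2 * (l + X) =
      (X - X₀) * (l * (X + X₀ - 2 * c) + (X * X₀ - c ^ 2)) := by ring
  have := mul_nonneg (sub_nonneg.2 hX) h
  linarith

theorem add_inv_mono {r x : ℝ} (hr : 1 ≤ r) (hx : r ≤ x) : r + r⁻¹ ≤ x + x⁻¹ := by
  have h0 : 0 < r := by linarith
  have h1 : 0 < x := by linarith
  have h3 : x + x⁻¹ - (r + r⁻¹) = (x - r) * (1 - (x * r)⁻¹) := by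
    field_simp
    ring
  have h4 : (x * r)⁻¹ ≤ 1 := inv_le_one_of_one_le₀ (by nlinarith)
  have h5 := mul_nonneg (sub_nonneg.2 hx) (sub_nonneg.2 h4)
  linarith

theorem two_le_add_inv {r : ℝ} (hr : 1 ≤ r) : 2 ≤ r + r⁻¹ := by
  have := add_inv_mono (le_refl (1 : ℝ)) hr
  norm_num at this
  linarith

/-- Cauchy's inequality -/
theorem cauchy_aux {E F R l Y : ℝ} (hl : 0 < l) (hY : 0 ≤ Y) (h : Y ≤ F + R * E) :
    l * Y ^ 2 ≤ (F ^ 2 + l * E ^ 2) * (l + R ^ 2) := by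
  have h1 : Y ^ 2 ≤ (F + R * E) ^ 2 := pow_le_pow_left₀ hY h 2
  have h2 : (F ^ 2 + l * E ^ 2) * (l + R ^ 2) - l * (F + R * E) ^ 2 = (F * R - l * E) ^ 2 := by ring
  nlinarith [sq_nonneg (F * R - l * E), mul_le_mul_of_nonneg_left h1 hl.le]

/-! ### `GL(4)` -/

theorem gl4_upper {α : Places S → Fin 4 → ℂ} {m : ℕ} (hm : 1 ≤ m) (hU : ∀ v, Unitary (α v)) (h1 : RSPole α 1)
    (h2 : RSPole (fun v => ext2 (α v)) m) {r : ℝ} (hr : 1 < r) :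
    UpperLE {v : Places S | ∃ i, r ≤ ‖α v i‖}
      (((r + r⁻¹ + Real.sqrt m) / ((r + r⁻¹) ^ 2 - 2)) ^ 2) := by
  obtain ⟨a1, C1, b1⟩ := rs_sum h1
  obtain ⟨a2, C2, b2⟩ := rs_sum h2
  set R := r + r⁻¹ with hR
  have hR2 : 2 ≤ R := two_le_add_inv hr.le
  set s := Real.sqrt m with hs
  have hmr : (1 : ℝ) ≤ m := by exact_mod_cast hm
  have hs0 : 0 < s := Real.sqrt_pos.2 (by linarith)
  have hss : s ^ 2 = m := Real.sq_sqrt (by linarith)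
  have hA : 0 < s * (R ^ 2 - 2) ^ 2 / (s + R) := by
    have : 0 < R ^ 2 - 2 := by nlinarith
    positivity
  have hden : R ^ 2 - 2 ≠ 0 := by nlinarith
  have e0 : ((R + s) / (R ^ 2 - 2)) ^ 2 = (s * (s + R)) / (s * (R ^ 2 - 2) ^ 2 / (s + R)) := by
    have : s + R ≠ 0 := by positivity
    field_simp
    ring
  rw [e0]
  have esplit : ∀ σ : ℝ, ∀ v : Places S, (‖∑ x, ext2 (α v) x‖ ^ 2 + (R * s) * ‖∑ x, α v x‖ ^ 2) * ww σ v =
      ‖∑ x, ext2 (α v) x‖ ^ 2 * ww σ v + (R * s) * (‖∑ x, α v x‖ ^ 2 * ww σ v) := fun σ v => by ring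
  refine cheb (P := fun v => ‖∑ x, ext2 (α v) x‖ ^ 2 + (R * s) * ‖∑ x, α v x‖ ^ 2)
    (fun v => by positivity) hA (fun σ hσ => ?_) ?_ ?_
  · simp only [esplit]
    exact (a2 σ hσ).add ((a1 σ hσ).mul_left _)
  · refine ⟨C2 + R * s * C1, ?_⟩
    filter_upwards [b1, b2, self_mem_nhdsWithin] with σ c1 c2 c3
    have hσ : (1 : ℝ) < σ := c3
    simp only [esplit]
    rw [(a2 σ hσ).tsum_add ((a1 σ hσ).mul_left _), tsum_mul_left]
    have hRs : 0 ≤ R * s := by positivity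
    have := mul_le_mul_of_nonneg_left c1 hRs
    have e3 : s * (s + R) * Lam σ = m * Lam σ + R * s * ((1 : ℕ) * Lam σ) := by
      rw [← hss]
      push_cast
      ring
    rw [e3]
    linarith
  · rintro v ⟨i, hi⟩
    have hi1 : ‖α v i‖ ≠ 1 := by linarith [hi, hr]
    have hmon := add_inv_mono hr.le hi
    have hloc := gl4 (hU v) hi1
    set Rv := ‖α v i‖ + ‖α v i‖⁻¹ with hRv
    have hle : R ≤ Rv := hmon
    have hRs : 0 < R * s := by positivity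
    have hc := cauchy_aux (E := ‖∑ x, α v x‖) (F := ‖∑ x, ext2 (α v) x‖) hRs
      (by nlinarith : 0 ≤ Rv ^ 2 - 2) hloc
    have hXX : R ^ 2 ≤ Rv ^ 2 := by nlinarith
    have hf := frac_mono (c := 2) (l := R * s) hXX (by
      have h4 : 4 ≤ R ^ 2 := by nlinarith
      have h5 : 4 ≤ Rv ^ 2 := by nlinarith
      nlinarith [mul_nonneg hRs.le (by linarith : 0 ≤ Rv ^ 2 + R ^ 2 - 2 * 2)])
    set P := ‖∑ x, ext2 (α v) x‖ ^ 2 + (R * s) * ‖∑ x, α v x‖ ^ 2 with hP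
    have hRv0 : 0 < R * s + Rv ^ 2 := by positivity
    have hR0 : 0 < R * s + R ^ 2 := by positivity
    -- `R s (R² - 2)² ≤ P (R s + R²)`
    have h6 : (R * s) * (R ^ 2 - 2) ^ 2 * (R * s + Rv ^ 2) ≤ P * (R * s + R ^ 2) * (R * s + Rv ^ 2) := by
      calc (R * s) * (R ^ 2 - 2) ^ 2 * (R * s + Rv ^ 2) = (R * s) * ((R ^ 2 - 2) ^ 2 * (R * s + Rv ^ 2)) := by ring
        _ ≤ (R * s) * ((Rv ^ 2 - 2) ^ 2 * (R * s + R ^ 2)) := mul_le_mul_of_nonneg_left hf hRs.le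
        _ = ((R * s) * (Rv ^ 2 - 2) ^ 2) * (R * s + R ^ 2) := by ring
        _ ≤ (P * (R * s + Rv ^ 2)) * (R * s + R ^ 2) := mul_le_mul_of_nonneg_right hc hR0.le
        _ = _ := by ring
    have h7 : (R * s) * (R ^ 2 - 2) ^ 2 ≤ P * (R * s + R ^ 2) := le_of_mul_le_mul_right h6 hRv0
    have hR00 : 0 < R := by linarith
    rw [div_le_iff₀ (by positivity)]
    have h8 : R * (s * (R ^ 2 - 2) ^ 2) ≤ R * (P * (s + R)) := by
      have q1 : R * (s * (R ^ 2 - 2) ^ 2) = (R * s) * (R ^ 2 - 2) ^ 2 := by ring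
      have q2 : R * (P * (s + R)) = P * (R * s + R ^ 2) := by ring
      rw [q1, q2]
      exact h7
    exact le_of_mul_le_mul_left h8 hR00

theorem defect_aux {E F R : ℝ} (hR : 2 ≤ R) (h : R ^ 2 - 2 ≤ F + R * E) :
    R ^ 2 - 4 ≤ 5 / 4 * E ^ 2 + 2 / 5 * F ^ 2 := by
  have hD : 0 ≤ 2 / 5 * (R ^ 2) ^ 2 - 33 / 5 * R ^ 2 + 28 := by nlinarith [sq_nonneg (R ^ 2 - 33 / 4)]
  by_cases hg : 0 ≤ R ^ 2 - 2 - R * E
  · have h1 : (R ^ 2 - 2 - R * E) ^ 2 ≤ F ^ 2 := pow_le_pow_left₀ hg (by linarith) 2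
    have h2 : 0 ≤ (5 / 4 + 2 / 5 * R ^ 2) * (5 / 4 * E ^ 2 + 2 / 5 * (R ^ 2 - 2 - R * E) ^ 2 - (R ^ 2 - 4)) := by
      have e : (5 / 4 + 2 / 5 * R ^ 2) * (5 / 4 * E ^ 2 + 2 / 5 * (R ^ 2 - 2 - R * E) ^ 2 - (R ^ 2 - 4)) =
          ((5 / 4 + 2 / 5 * R ^ 2) * E - 2 / 5 * (R ^ 2 - 2) * R) ^ 2 +
          (2 / 5 * (R ^ 2) ^ 2 - 33 / 5 * R ^ 2 + 28) / 4 := by ring
      rw [e]
      positivity
    have h3 : 0 < 5 / 4 + 2 / 5 * R ^ 2 := by positivity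
    have h4 := nonneg_of_mul_nonneg_right h2 h3
    linarith
  · rw [not_le] at hg
    have h1 : R ^ 2 - 2 ≤ R * E := by linarith
    have h0 : 0 ≤ R ^ 2 - 2 := by nlinarith
    have h2 : (R ^ 2 - 2) ^ 2 ≤ (R * E) ^ 2 := pow_le_pow_left₀ h0 h1 2
    have h3 : R ^ 2 * (R ^ 2 - 4) ≤ R ^ 2 * (5 / 4 * E ^ 2) := by nlinarith
    have h4 : R ^ 2 - 4 ≤ 5 / 4 * E ^ 2 := le_of_mul_le_mul_left h3 (by positivity)
    nlinarith [sq_nonneg F]

theorem gl4_defect {α : Places S → Fin 4 → ℂ} {m : ℕ} (hU : ∀ v, Unitary (α v)) (h1 : RSPole α 1)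
    (h2 : RSPole (fun v => ext2 (α v)) m) (i : Places S → Fin 4) :
    (∀ σ : ℝ, 1 < σ → Summable fun v : Places S => (‖α v (i v)‖ - ‖α v (i v)‖⁻¹) ^ 2 * ww σ v) ∧
    ∃ C : ℝ, ∀ᶠ σ : ℝ in 𝓝[>] 1, ∑' v : Places S, (‖α v (i v)‖ - ‖α v (i v)‖⁻¹) ^ 2 * ww σ v ≤
      (5 / 4 + 2 / 5 * m) * Real.log (1 / (σ - 1)) + C := by
  obtain ⟨a1, C1, b1⟩ := rs_sum h1
  obtain ⟨a2, C2, b2⟩ := rs_sum h2
  have hle : ∀ v : Places S, (‖α v (i v)‖ - ‖α v (i v)‖⁻¹) ^ 2 ≤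
      5 / 4 * ‖∑ x, α v x‖ ^ 2 + 2 / 5 * ‖∑ x, ext2 (α v) x‖ ^ 2 := by
    intro v
    have hpos : 0 < ‖α v (i v)‖ := norm_pos_iff.2 ((hU v).1 _)
    have h3 : ‖α v (i v)‖ * ‖α v (i v)‖⁻¹ = 1 := mul_inv_cancel₀ hpos.ne'
    by_cases ht : ‖α v (i v)‖ = 1
    · rw [ht]
      norm_num
      positivity
    · have hloc := gl4 (hU v) ht
      have hR2 : 2 ≤ ‖α v (i v)‖ + ‖α v (i v)‖⁻¹ := by
        have : 0 < ‖α v (i v)‖⁻¹ := by positivity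
        nlinarith [sq_nonneg (‖α v (i v)‖ - ‖α v (i v)‖⁻¹)]
      have h4 := defect_aux hR2 hloc
      have e : (‖α v (i v)‖ - ‖α v (i v)‖⁻¹) ^ 2 = (‖α v (i v)‖ + ‖α v (i v)‖⁻¹) ^ 2 - 4 := by
        nlinarith
      rw [e]
      exact h4
  have hS : ∀ σ : ℝ, 1 < σ → Summable fun v : Places S => 5 / 4 * (‖∑ x, α v x‖ ^ 2 * ww σ v) +
      2 / 5 * (‖∑ x, ext2 (α v) x‖ ^ 2 * ww σ v) := fun σ hσ =>
    ((a1 σ hσ).mul_left _).add ((a2 σ hσ).mul_left _)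
  have hb : ∀ σ : ℝ, ∀ v : Places S, (‖α v (i v)‖ - ‖α v (i v)‖⁻¹) ^ 2 * ww σ v ≤
      5 / 4 * (‖∑ x, α v x‖ ^ 2 * ww σ v) + 2 / 5 * (‖∑ x, ext2 (α v) x‖ ^ 2 * ww σ v) := by
    intro σ v
    have := mul_le_mul_of_nonneg_right (hle v) (ww_pos σ v).le
    linarith
  have hS0 : ∀ σ : ℝ, 1 < σ → Summable fun v : Places S => (‖α v (i v)‖ - ‖α v (i v)‖⁻¹) ^ 2 * ww σ v :=
    fun σ hσ => Summable.of_nonneg_of_le (fun v => mul_nonneg (sq_nonneg _) (ww_pos σ v).le) (hb σ) (hS σ hσ)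
  refine ⟨hS0, 5 / 4 * C1 + 2 / 5 * C2, ?_⟩
  filter_upwards [b1, b2, self_mem_nhdsWithin] with σ c1 c2 c3
  have hσ : (1 : ℝ) < σ := c3
  have h5 := Summable.tsum_le_tsum (hb σ) (hS0 σ hσ) (hS σ hσ)
  rw [((a1 σ hσ).mul_left _).tsum_add ((a2 σ hσ).mul_left _), tsum_mul_left, tsum_mul_left] at h5
  have h6 : Real.log (1 / (σ - 1)) = Lam σ := rfl
  rw [h6]
  push_cast at c1
  linarith

/-! ### symplectic parameters -/

theorem norm_sub_sq (u : ℂ) (k : ℝ) : ‖u - k‖ ^ 2 = ‖u‖ ^ 2 - 2 * k * u.re + k ^ 2 := by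
  rw [← Complex.normSq_eq_norm_sq, ← Complex.normSq_eq_norm_sq, Complex.normSq_apply, Complex.normSq_apply]
  simp only [Complex.sub_re, Complex.sub_im, Complex.ofReal_re, Complex.ofReal_im]
  ring

/-- the mean of `‖u - k‖²` -/
theorem sq_sum {n : ℕ} {b : Places S → Fin n → ℂ} (h : RSPole b 1) (hr : Regular b) (k : ℝ) :
    (∀ σ : ℝ, 1 < σ → Summable fun v : Places S => ‖∑ i, b v i - k‖ ^ 2 * ww σ v) ∧
    ∃ C : ℝ, ∀ᶠ σ : ℝ in 𝓝[>] 1, ∑' v : Places S, ‖∑ i, b v i - k‖ ^ 2 * ww σ v ≤ (1 + k ^ 2) * Lam σ + C := by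
  obtain ⟨a1, C1, b1⟩ := rs_sum h
  obtain ⟨a2, C2, b2⟩ := std_sum h hr
  obtain ⟨C3, b3⟩ := ww_bdd (S := S)
  have e : ∀ σ : ℝ, ∀ v : Places S, ‖∑ i, b v i - k‖ ^ 2 * ww σ v =
      ‖∑ i, b v i‖ ^ 2 * ww σ v + (-(2 * k)) * ((∑ i, b v i).re * ww σ v) + k ^ 2 * ww σ v := by
    intro σ v
    rw [norm_sub_sq]
    ring
  have hS : ∀ σ : ℝ, 1 < σ → Summable fun v : Places S => ‖∑ i, b v i‖ ^ 2 * ww σ v +
      (-(2 * k)) * ((∑ i, b v i).re * ww σ v) := fun σ hσ => (a1 σ hσ).add ((a2 σ hσ).mul_left _)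
  refine ⟨fun σ hσ => ?_, C1 + |2 * k| * C2 + k ^ 2 * C3, ?_⟩
  · simp only [e]
    exact (hS σ hσ).add ((ww_summable hσ).mul_left _)
  · filter_upwards [b1, b2, b3, self_mem_nhdsWithin] with σ c1 c2 c3 c4
    have hσ : (1 : ℝ) < σ := c4
    simp only [e]
    rw [(hS σ hσ).tsum_add ((ww_summable hσ).mul_left _), (a1 σ hσ).tsum_add ((a2 σ hσ).mul_left _),
      tsum_mul_left, tsum_mul_left]
    have h5 : -(2 * k) * ∑' v : Places S, (∑ i, b v i).re * ww σ v ≤ |2 * k| * C2 := by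
      refine (le_abs_self _).trans ?_
      rw [abs_mul, abs_neg]
      exact mul_le_mul_of_nonneg_left c2 (abs_nonneg _)
    have h6 : ∑' v : Places S, ww σ v ≤ Lam σ + C3 := by linarith [(abs_le.1 c3).2]
    have h7 := mul_le_mul_of_nonneg_left h6 (sq_nonneg k)
    push_cast at c1
    linarith

/-- the parameter is nontempered, of the first kind, of absolute value at least `r` -/
def First (a : Fin 4 → ℂ) (w : ℂ) (r : ℝ) : Prop :=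
  ∃ i, 1 < ‖a i‖ ∧ r ≤ ‖a i‖ ∧ ¬ ∃ ρ : ℝ, 0 < ρ ∧ a i ^ 2 = ρ * w

/-- the parameter is nontempered, of the second kind, of absolute value at least `r` -/
def Second (a : Fin 4 → ℂ) (w : ℂ) (r : ℝ) : Prop :=
  ∃ i, 1 < ‖a i‖ ∧ r ≤ ‖a i‖ ∧ ∃ ρ : ℝ, 0 < ρ ∧ a i ^ 2 = ρ * w

theorem first_upper {α : Places S → Fin 4 → ℂ} {ω : Places S → ℂ} (hU : ∀ v, Unitary (α v))
    (hS : ∀ v, Sympl (α v) (ω v)) (h5 : RSPole (fun v => std5 (α v) (ω v)) 1)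
    (hr5 : Regular fun v => std5 (α v) (ω v)) {r : ℝ} (hr : 1 ≤ r) :
    UpperLE {v : Places S | First (α v) (ω v) r} (1 / (1 + ((r + r⁻¹) ^ 2 - 3) ^ 2)) := by
  set R := r + r⁻¹ with hR
  have hR2 : 2 ≤ R := two_le_add_inv hr
  set T := R ^ 2 - 3 with hT
  have hT1 : 1 ≤ T := by nlinarith
  obtain ⟨a1, b1⟩ := sq_sum h5 hr5 (-T⁻¹)
  have hA : 0 < (T + T⁻¹) ^ 2 := by positivity
  have e0 : 1 / (1 + T ^ 2) = (1 + (-T⁻¹) ^ 2) / (T + T⁻¹) ^ 2 := by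
    have hT0 : T ≠ 0 := by positivity
    field_simp
    ring
  rw [e0]
  refine cheb (fun v => by positivity) hA a1 b1 ?_
  rintro v ⟨i, hi1, hir, hk⟩
  obtain ⟨u, hu, hle⟩ := first_kind (hU v) (hS v) (by linarith : ‖α v i‖ ≠ 1) hk
  have hmon := add_inv_mono hr hir
  have h6 : T ≤ u := by
    refine le_trans ?_ hle
    rw [hT]
    have : R ^ 2 ≤ (‖α v i‖ + ‖α v i‖⁻¹) ^ 2 := pow_le_pow_left₀ (by linarith) hmon 2
    linarith
  rw [hu]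
  have e1 : (u : ℂ) - ((-T⁻¹ : ℝ) : ℂ) = ((u + T⁻¹ : ℝ) : ℂ) := by push_cast; ring
  have hTi : 0 < T⁻¹ := by positivity
  rw [e1, Complex.norm_real, Real.norm_of_nonneg (by linarith)]
  exact pow_le_pow_left₀ (by positivity) (by linarith) 2

theorem second_upper {α : Places S → Fin 4 → ℂ} {ω : Places S → ℂ} (hU : ∀ v, Unitary (α v))
    (hS : ∀ v, Sympl (α v) (ω v)) (h1 : RSPole α 1) (h5 : RSPole (fun v => std5 (α v) (ω v)) 1)
    (hr5 : Regular fun v => std5 (α v) (ω v)) {r k : ℝ} (hr : 1 ≤ r) (hk : 0 ≤ k) :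
    UpperLE {v : Places S | Second (α v) (ω v) r}
      (((r + r⁻¹ + Real.sqrt (1 + k ^ 2)) / ((r + r⁻¹) ^ 2 - 1 + k)) ^ 2) := by
  set R := r + r⁻¹ with hR
  have hR2 : 2 ≤ R := two_le_add_inv hr
  set q := Real.sqrt (1 + k ^ 2) with hq
  have hqq : q ^ 2 = 1 + k ^ 2 := Real.sq_sqrt (by positivity)
  have hq0 : 0 ≤ q := Real.sqrt_nonneg _
  have hq1 : 1 ≤ q := by nlinarith [sq_nonneg k]
  have hqk : k ≤ q := by nlinarith
  obtain ⟨a1, C1, b1⟩ := rs_sum h1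
  obtain ⟨a2, C2, b2⟩ := sq_sum h5 hr5 k
  have hW : 0 < R ^ 2 - 1 + k := by nlinarith
  have hA : 0 < q * (R ^ 2 - 1 + k) ^ 2 / (q + R) := by positivity
  have e0 : ((R + q) / (R ^ 2 - 1 + k)) ^ 2 = (q * (q + R)) / (q * (R ^ 2 - 1 + k) ^ 2 / (q + R)) := by
    have : q + R ≠ 0 := by positivity
    have : q ≠ 0 := by positivity
    field_simp
    ring
  rw [e0]
  have esplit : ∀ σ : ℝ, ∀ v : Places S,
      (‖∑ x, std5 (α v) (ω v) x - k‖ ^ 2 + (R * q) * ‖∑ x, α v x‖ ^ 2) * ww σ v =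
      ‖∑ x, std5 (α v) (ω v) x - k‖ ^ 2 * ww σ v + (R * q) * (‖∑ x, α v x‖ ^ 2 * ww σ v) := fun σ v => by ring
  refine cheb (P := fun v => ‖∑ x, std5 (α v) (ω v) x - k‖ ^ 2 + (R * q) * ‖∑ x, α v x‖ ^ 2)
    (fun v => by positivity) hA (fun σ hσ => ?_) ?_ ?_
  · simp only [esplit]
    exact (a2 σ hσ).add ((a1 σ hσ).mul_left _)
  · refine ⟨C2 + R * q * C1, ?_⟩
    filter_upwards [b1, b2, self_mem_nhdsWithin] with σ c1 c2 c3
    have hσ : (1 : ℝ) < σ := c3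
    simp only [esplit]
    rw [(a2 σ hσ).tsum_add ((a1 σ hσ).mul_left _), tsum_mul_left]
    have hRs : 0 ≤ R * q := by positivity
    have := mul_le_mul_of_nonneg_left c1 hRs
    have e3 : q * (q + R) * Lam σ = (1 + k ^ 2) * Lam σ + R * q * ((1 : ℕ) * Lam σ) := by
      rw [← hqq]
      push_cast
      ring
    rw [e3]
    linarith
  · rintro v ⟨i, hi1, hir, hρ⟩
    have hmon := add_inv_mono hr hir
    have hloc := second_kind (hU v) (hS v) hρ k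
    set Rv := ‖α v i‖ + ‖α v i‖⁻¹ with hRv
    have hle : R ≤ Rv := hmon
    have hRs : 0 < R * q := by positivity
    have hXX : R ^ 2 ≤ Rv ^ 2 := by nlinarith
    have h4 : 4 ≤ R ^ 2 := by nlinarith
    have hc := cauchy_aux (E := ‖∑ x, α v x‖) (F := ‖∑ x, std5 (α v) (ω v) x - k‖) hRs
      (by linarith : 0 ≤ Rv ^ 2 - 1 + k) hloc
    have hf := frac_mono (c := 1 - k) (l := R * q) hXX (by
      have hl2 : 2 * k ≤ R * q := by nlinarith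
      have h7 : 0 ≤ Rv ^ 2 + R ^ 2 - 2 * (1 - k) := by linarith
      have h8 : 2 * k * (6 + 2 * k) ≤ R * q * (Rv ^ 2 + R ^ 2 - 2 * (1 - k)) := by
        have : 6 + 2 * k ≤ Rv ^ 2 + R ^ 2 - 2 * (1 - k) := by linarith
        exact mul_le_mul hl2 this (by positivity) hRs.le
      have h9 : 16 ≤ Rv ^ 2 * R ^ 2 := by nlinarith
      nlinarith)
    have ex1 : R ^ 2 - (1 - k) = R ^ 2 - 1 + k := by ring
    have ex2 : Rv ^ 2 - (1 - k) = Rv ^ 2 - 1 + k := by ring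
    rw [ex1, ex2] at hf
    set P := ‖∑ x, std5 (α v) (ω v) x - k‖ ^ 2 + (R * q) * ‖∑ x, α v x‖ ^ 2 with hP
    have hRv0 : 0 < R * q + Rv ^ 2 := by positivity
    have hR0 : 0 < R * q + R ^ 2 := by positivity
    have h6 : (R * q) * (R ^ 2 - 1 + k) ^ 2 * (R * q + Rv ^ 2) ≤ P * (R * q + R ^ 2) * (R * q + Rv ^ 2) := by
      calc (R * q) * (R ^ 2 - 1 + k) ^ 2 * (R * q + Rv ^ 2) =
          (R * q) * ((R ^ 2 - 1 + k) ^ 2 * (R * q + Rv ^ 2)) := by ring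
        _ ≤ (R * q) * ((Rv ^ 2 - 1 + k) ^ 2 * (R * q + R ^ 2)) := mul_le_mul_of_nonneg_left hf hRs.le
        _ = ((R * q) * (Rv ^ 2 - 1 + k) ^ 2) * (R * q + R ^ 2) := by ring
        _ ≤ (P * (R * q + Rv ^ 2)) * (R * q + R ^ 2) := mul_le_mul_of_nonneg_right hc hR0.le
        _ = _ := by ring
    have h7 : (R * q) * (R ^ 2 - 1 + k) ^ 2 ≤ P * (R * q + R ^ 2) := le_of_mul_le_mul_right h6 hRv0
    have hR00 : 0 < R := by linarith
    rw [div_le_iff₀ (by positivity)]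
    have h8 : R * (q * (R ^ 2 - 1 + k) ^ 2) ≤ R * (P * (q + R)) := by
      have q1 : R * (q * (R ^ 2 - 1 + k) ^ 2) = (R * q) * (R ^ 2 - 1 + k) ^ 2 := by ring
      have q2 : R * (P * (q + R)) = P * (R * q + R ^ 2) := by ring
      rw [q1, q2]
      exact h7
    exact le_of_mul_le_mul_left h8 hR00

end Pool.Agent.H406.GLF
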